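import Pool.Agent.Q223.Mix.Basic

namespace Pool.Agent.Q223.Mix

open Matrix Finset

theorem S_symm (n : ℕ) (a r : Fin n) : S n a r = S n r a := by
  simp only [S, Matrix.of_apply]
  congr 2
  ring

theorem ck_zero (n : ℕ) (a : Fin n) : ck n 0 a = 1 := by
  simp [ck]

theorem dl_of (n : ℕ) (j : ℤ) (h : (2 * ((n : ℤ) + 1)) ∣ j) : dl n j = 1 := by
  simp [dl, h]

theorem dl_not (n : ℕ) (j : ℤ) (h : ¬ (2 * ((n : ℤ) + 1)) ∣ j) : dl n j = 0 := by
  simp [dl, h]

theorem not_dvd_of (m j : ℤ) (h0 : 0 < j) (h1 : j < m) : ¬ m ∣ j := by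
  intro h
  exact absurd (Int.le_of_dvd h0 h) (by omega)

theorem dvd_iff_zero (m j : ℤ) (h0 : -m < j) (h1 : j < m) : m ∣ j ↔ j = 0 := by
  constructor
  · intro h
    exact Int.eq_zero_of_abs_lt_dvd h (by rw [abs_lt]; exact ⟨h0, h1⟩)
  · rintro rfl
    exact dvd_zero m

theorem dvd_iff_self (m j : ℤ) (h0 : 0 < j) (h1 : j < 2 * m) : m ∣ j ↔ j = m := by
  constructor
  · intro h
    have : m ∣ j - m := dvd_sub h dvd_rfl
    rw [dvd_iff_zero _ _ (by omega) (by omega)] at this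
    omega
  · rintro rfl
    exact dvd_rfl

theorem orth (n : ℕ) (r s : Fin n) :
    ∑ a : Fin n, S n a r * S n a s = if r = s then 1 else 0 := by
  have h := W_eq n 0 r s
  simp only [ck_zero, one_mul] at h
  rw [h]
  have hr := r.isLt
  have hs := s.isLt
  simp only [add_zero, sub_zero]
  rw [dl_not n (((r : ℤ) + 1) + ((s : ℤ) + 1)) (not_dvd_of _ _ (by omega) (by omega))]
  by_cases e : r = s
  · subst e
    rw [dl_of n _ (by simp), if_pos rfl]
    norm_num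
  · rw [dl_not n (((r : ℤ) + 1) - ((s : ℤ) + 1)) ?_, if_neg e]
    · norm_num
    · rw [dvd_iff_zero _ _ (by omega) (by omega)]
      intro h0
      apply e
      apply Fin.ext
      omega

/-- eigenvalues -/
noncomputable def th (n : ℕ) (r : ℤ) : ℝ := 2 * Real.cos (Real.pi * r / ((n : ℝ) + 1))

theorem th_neg (n : ℕ) (r : ℤ) : th n ((n : ℤ) + 1 - r) = - th n r := by
  have hN : ((n : ℝ) + 1) ≠ 0 := by positivity
  simp only [th]
  have : Real.pi * (((n : ℤ) + 1 - r : ℤ) : ℝ) / ((n : ℝ) + 1) =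
      Real.pi - Real.pi * r / ((n : ℝ) + 1) := by
    push_cast
    field_simp
  rw [this, Real.cos_pi_sub]
  ring

/-- The averaged mixing matrix in terms of `φ`. -/
noncomputable def H (n : ℕ) (φ : ℝ → ℝ) (a b : Fin n) : ℝ :=
  ∑ r : Fin n, ∑ s : Fin n, S n a r * S n a s * (S n b r * S n b s) *
    φ (th n ((r : ℤ) + 1) - th n ((s : ℤ) + 1))

theorem H_symm (n : ℕ) (φ : ℝ → ℝ) (a b : Fin n) : H n φ a b = H n φ b a := by
  unfold H
  refine Finset.sum_congr rfl fun r _ => Finset.sum_congr rfl fun s _ => ?_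
  ring

theorem H_row (n : ℕ) (φ : ℝ → ℝ) (h0 : φ 0 = 1) (a : Fin n) : ∑ b, H n φ a b = 1 := by
  have h1 : ∑ b, H n φ a b = ∑ r : Fin n, ∑ s : Fin n, S n a r * S n a s *
      (∑ b, S n b r * S n b s) * φ (th n ((r : ℤ) + 1) - th n ((s : ℤ) + 1)) := by
    unfold H
    rw [Finset.sum_comm]
    refine Finset.sum_congr rfl fun r _ => ?_
    rw [Finset.sum_comm]
    refine Finset.sum_congr rfl fun s _ => ?_
    rw [Finset.mul_sum, Finset.sum_mul]
  rw [h1]
  have h2 : ∀ r : Fin n, ∑ s : Fin n, S n a r * S n a s *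
      (∑ b, S n b r * S n b s) * φ (th n ((r : ℤ) + 1) - th n ((s : ℤ) + 1)) = S n r a * S n r a := by
    intro r
    rw [Finset.sum_eq_single r]
    · rw [orth, if_pos rfl, sub_self, h0, S_symm n a r]; ring
    · intro s _ hs
      rw [orth, if_neg (Ne.symm hs)]; ring
    · simp
  rw [Finset.sum_congr rfl (fun r _ => h2 r), orth, if_pos rfl]

/-- the indicator of a proposition -/
theorem dl1 (n : ℕ) (r s : Fin n) (k : ℤ) (hk : 0 < k) (hk' : k < (n : ℤ) + 1) :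
    dl n (((r : ℤ) + 1) - ((s : ℤ) + 1) + k) = if (s : ℤ) = r + k then 1 else 0 := by
  have hr := r.isLt
  have hs := s.isLt
  unfold dl
  have : (2 * ((n : ℤ) + 1) ∣ (((r : ℤ) + 1) - ((s : ℤ) + 1) + k)) ↔ (s : ℤ) = r + k := by
    rw [dvd_iff_zero _ _ (by omega) (by omega)]
    constructor <;> intro h <;> omega
  simp only [this]

theorem dl2 (n : ℕ) (r s : Fin n) (k : ℤ) (hk : 0 < k) (hk' : k < (n : ℤ) + 1) :
    dl n (((r : ℤ) + 1) - ((s : ℤ) + 1) - k) = if (r : ℤ) = s + k then 1 else 0 := by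
  have hr := r.isLt
  have hs := s.isLt
  unfold dl
  have : (2 * ((n : ℤ) + 1) ∣ (((r : ℤ) + 1) - ((s : ℤ) + 1) - k)) ↔ (r : ℤ) = s + k := by
    rw [dvd_iff_zero _ _ (by omega) (by omega)]
    constructor <;> intro h <;> omega
  simp only [this]

theorem dl3 (n : ℕ) (r s : Fin n) (k : ℤ) (hk : 0 < k) (hk' : k < (n : ℤ) + 1) :
    dl n (((r : ℤ) + 1) + ((s : ℤ) + 1) + k) = if (r : ℤ) + s + 2 + k = 2 * (n + 1) then 1 else 0 := by
  have hr := r.isLt
  have hs := s.isLt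
  unfold dl
  have : (2 * ((n : ℤ) + 1) ∣ (((r : ℤ) + 1) + ((s : ℤ) + 1) + k)) ↔ (r : ℤ) + s + 2 + k = 2 * (n + 1) := by
    rw [dvd_iff_self _ _ (by omega) (by omega)]
    constructor <;> intro h <;> omega
  simp only [this]

theorem dl4 (n : ℕ) (r s : Fin n) (k : ℤ) (hk : 0 < k) (hk' : k < (n : ℤ) + 1) :
    dl n (((r : ℤ) + 1) + ((s : ℤ) + 1) - k) = if (r : ℤ) + s + 2 = k then 1 else 0 := by
  have hr := r.isLt
  have hs := s.isLt
  unfold dl
  have : (2 * ((n : ℤ) + 1) ∣ (((r : ℤ) + 1) + ((s : ℤ) + 1) - k)) ↔ (r : ℤ) + s + 2 = k := by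
    rw [dvd_iff_zero _ _ (by omega) (by omega)]
    constructor <;> intro h <;> omega
  simp only [this]

theorem ite_mul_ite {P Q : Prop} [Decidable P] [Decidable Q] :
    (if P then (1 : ℝ) else 0) * (if Q then 1 else 0) = if P ∧ Q then 1 else 0 := by
  by_cases hP : P <;> by_cases hQ : Q <;> simp [hP, hQ]

theorem prodW (n : ℕ) (u v : ℤ) (hv : 1 ≤ v) (huv : v < u) (hN : u + v < (n : ℤ) + 1)
    (r s : Fin n) :
    (∑ a : Fin n, ck n (u - v) a * S n a r * S n a s) *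
      (∑ a : Fin n, ck n (u + v) a * S n a r * S n a s) =
    - (1 / 4) * ((if (r : ℤ) + 1 = u ∧ (s : ℤ) + 1 = v then 1 else 0) +
      (if (r : ℤ) + 1 = v ∧ (s : ℤ) + 1 = u then 1 else 0) +
      (if (r : ℤ) + 1 = (n : ℤ) + 1 - v ∧ (s : ℤ) + 1 = (n : ℤ) + 1 - u then 1 else 0) +
      (if (r : ℤ) + 1 = (n : ℤ) + 1 - u ∧ (s : ℤ) + 1 = (n : ℤ) + 1 - v then 1 else 0)) := by
  have hr := r.isLt
  have hs := s.isLt
  rw [W_eq, W_eq, dl1 n r s (u - v) (by omega) (by omega), dl2 n r s (u - v) (by omega) (by omega),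
    dl3 n r s (u - v) (by omega) (by omega), dl4 n r s (u - v) (by omega) (by omega),
    dl1 n r s (u + v) (by omega) (by omega), dl2 n r s (u + v) (by omega) (by omega),
    dl3 n r s (u + v) (by omega) (by omega), dl4 n r s (u + v) (by omega) (by omega)]
  set a1 : ℝ := (if (s : ℤ) = r + (u - v) then 1 else 0) with ha1
  set a2 : ℝ := (if (r : ℤ) = s + (u - v) then 1 else 0) with ha2
  set a3 : ℝ := (if (r : ℤ) + s + 2 + (u - v) = 2 * (n + 1) then 1 else 0) with ha3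
  set a4 : ℝ := (if (r : ℤ) + s + 2 = (u - v) then 1 else 0) with ha4
  set b1 : ℝ := (if (s : ℤ) = r + (u + v) then 1 else 0) with hb1
  set b2 : ℝ := (if (r : ℤ) = s + (u + v) then 1 else 0) with hb2
  set b3 : ℝ := (if (r : ℤ) + s + 2 + (u + v) = 2 * (n + 1) then 1 else 0) with hb3
  set b4 : ℝ := (if (r : ℤ) + s + 2 = (u + v) then 1 else 0) with hb4
  have z : ∀ {P Q : Prop} [Decidable P] [Decidable Q], ¬ (P ∧ Q) →
      (if P then (1 : ℝ) else 0) * (if Q then 1 else 0) = 0 := by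
    intro P Q _ _ h
    rw [ite_mul_ite, if_neg h]
  have z11 : a1 * b1 = 0 := z (by omega)
  have z12 : a1 * b2 = 0 := z (by omega)
  have z21 : a2 * b1 = 0 := z (by omega)
  have z22 : a2 * b2 = 0 := z (by omega)
  have z31 : a3 * b1 = 0 := z (by omega)
  have z32 : a3 * b2 = 0 := z (by omega)
  have z33 : a3 * b3 = 0 := z (by omega)
  have z34 : a3 * b4 = 0 := z (by omega)
  have z41 : a4 * b1 = 0 := z (by omega)
  have z42 : a4 * b2 = 0 := z (by omega)
  have z43 : a4 * b3 = 0 := z (by omega)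
  have z44 : a4 * b4 = 0 := z (by omega)
  have w14 : a1 * b4 = if (r : ℤ) + 1 = v ∧ (s : ℤ) + 1 = u then 1 else 0 := by
    rw [ha1, hb4, ite_mul_ite]
    exact if_congr (by omega) rfl rfl
  have w24 : a2 * b4 = if (r : ℤ) + 1 = u ∧ (s : ℤ) + 1 = v then 1 else 0 := by
    rw [ha2, hb4, ite_mul_ite]
    exact if_congr (by omega) rfl rfl
  have w13 : a1 * b3 = if (r : ℤ) + 1 = (n : ℤ) + 1 - u ∧ (s : ℤ) + 1 = (n : ℤ) + 1 - v then 1 else 0 := by
    rw [ha1, hb3, ite_mul_ite]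
    exact if_congr (by omega) rfl rfl
  have w23 : a2 * b3 = if (r : ℤ) + 1 = (n : ℤ) + 1 - v ∧ (s : ℤ) + 1 = (n : ℤ) + 1 - u then 1 else 0 := by
    rw [ha2, hb3, ite_mul_ite]
    exact if_congr (by omega) rfl rfl
  rw [← w14, ← w24, ← w13, ← w23]
  linear_combination (1 / 4) * (z11 + z12 + z21 + z22) - (1 / 4) * (z31 + z32) + (1/4) * (z33 + z34)
    - (1/4) * (z41 + z42) + (1/4) * (z43 + z44)

theorem sum_ind (n : ℕ) (F : ℤ → ℤ → ℝ) (u v : ℤ) (hu : 1 ≤ u) (hu' : u < (n : ℤ) + 1)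
    (hv : 1 ≤ v) (hv' : v < (n : ℤ) + 1) :
    ∑ r : Fin n, ∑ s : Fin n, (if (r : ℤ) + 1 = u ∧ (s : ℤ) + 1 = v then (1 : ℝ) else 0) *
      F ((r : ℤ) + 1) ((s : ℤ) + 1) = F u v := by
  obtain ⟨x, rfl⟩ : ∃ x : ℕ, u = (x : ℤ) + 1 := ⟨(u - 1).toNat, by omega⟩
  obtain ⟨y, rfl⟩ : ∃ y : ℕ, v = (y : ℤ) + 1 := ⟨(v - 1).toNat, by omega⟩
  have hx : x < n := by omega
  have hy : y < n := by omega
  rw [Finset.sum_eq_single (⟨x, hx⟩ : Fin n), Finset.sum_eq_single (⟨y, hy⟩ : Fin n)]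
  · simp
  · intro s _ hs
    rw [if_neg, zero_mul]
    rintro ⟨-, h⟩
    apply hs
    apply Fin.ext
    simp only
    omega
  · simp
  · intro r _ hr
    apply Finset.sum_eq_zero
    intro s _
    rw [if_neg, zero_mul]
    rintro ⟨h, -⟩
    apply hr
    apply Fin.ext
    simp only
    omega
  · simp

theorem bilin (n : ℕ) (φ : ℝ → ℝ) (hφ : ∀ x, φ (-x) = φ x) (u v : ℤ) (hv : 1 ≤ v) (huv : v < u)
    (hN : u + v < (n : ℤ) + 1) :
    ∑ a : Fin n, ∑ b : Fin n, ck n (u - v) a * ck n (u + v) b * H n φ a b =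
      - φ (th n u - th n v) := by
  have h1 : ∑ a : Fin n, ∑ b : Fin n, ck n (u - v) a * ck n (u + v) b * H n φ a b =
      ∑ r : Fin n, ∑ s : Fin n, (∑ a : Fin n, ck n (u - v) a * S n a r * S n a s) *
      (∑ b : Fin n, ck n (u + v) b * S n b r * S n b s) *
        φ (th n ((r : ℤ) + 1) - th n ((s : ℤ) + 1)) := by
    have e1 : ∀ a b : Fin n, ck n (u - v) a * ck n (u + v) b * H n φ a b =
        ∑ r : Fin n, ∑ s : Fin n, (ck n (u - v) a * S n a r * S n a s) *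
      (ck n (u + v) b * S n b r * S n b s) * φ (th n ((r : ℤ) + 1) - th n ((s : ℤ) + 1)) := by
      intro a b
      unfold H
      rw [Finset.mul_sum]
      refine Finset.sum_congr rfl fun r _ => ?_
      rw [Finset.mul_sum]
      refine Finset.sum_congr rfl fun s _ => ?_
      ring
    simp only [e1]
    have e2 : ∀ a : Fin n, ∑ b : Fin n, ∑ r : Fin n, ∑ s : Fin n, (ck n (u - v) a * S n a r * S n a s) *
      (ck n (u + v) b * S n b r * S n b s) * φ (th n ((r : ℤ) + 1) - th n ((s : ℤ) + 1)) =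
      ∑ r : Fin n, ∑ s : Fin n, ∑ b : Fin n, (ck n (u - v) a * S n a r * S n a s) *
      (ck n (u + v) b * S n b r * S n b s) * φ (th n ((r : ℤ) + 1) - th n ((s : ℤ) + 1)) := by
      intro a
      rw [Finset.sum_comm]
      refine Finset.sum_congr rfl fun r _ => ?_
      rw [Finset.sum_comm]
    simp only [e2]
    rw [Finset.sum_comm]
    refine Finset.sum_congr rfl fun r _ => ?_
    rw [Finset.sum_comm]
    refine Finset.sum_congr rfl fun s _ => ?_
    rw [Finset.sum_mul_sum, Finset.sum_mul]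
    refine Finset.sum_congr rfl fun a _ => ?_
    rw [Finset.sum_mul]
  rw [h1]
  simp only [prodW n u v hv huv hN]
  have h2 : ∀ r s : Fin n, - (1 / 4 : ℝ) * ((if (r : ℤ) + 1 = u ∧ (s : ℤ) + 1 = v then 1 else 0) +
      (if (r : ℤ) + 1 = v ∧ (s : ℤ) + 1 = u then 1 else 0) +
      (if (r : ℤ) + 1 = (n : ℤ) + 1 - v ∧ (s : ℤ) + 1 = (n : ℤ) + 1 - u then 1 else 0) +
      (if (r : ℤ) + 1 = (n : ℤ) + 1 - u ∧ (s : ℤ) + 1 = (n : ℤ) + 1 - v then 1 else 0)) *
        φ (th n ((r : ℤ) + 1) - th n ((s : ℤ) + 1)) =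
      - (1 / 4 : ℝ) * ((if (r : ℤ) + 1 = u ∧ (s : ℤ) + 1 = v then 1 else 0) *
          φ (th n ((r : ℤ) + 1) - th n ((s : ℤ) + 1))) +
      - (1 / 4 : ℝ) * ((if (r : ℤ) + 1 = v ∧ (s : ℤ) + 1 = u then 1 else 0) *
          φ (th n ((r : ℤ) + 1) - th n ((s : ℤ) + 1))) +
      - (1 / 4 : ℝ) * ((if (r : ℤ) + 1 = (n : ℤ) + 1 - v ∧ (s : ℤ) + 1 = (n : ℤ) + 1 - u then 1 else 0) *
          φ (th n ((r : ℤ) + 1) - th n ((s : ℤ) + 1))) +
      - (1 / 4 : ℝ) * ((if (r : ℤ) + 1 = (n : ℤ) + 1 - u ∧ (s : ℤ) + 1 = (n : ℤ) + 1 - v then 1 else 0) *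
          φ (th n ((r : ℤ) + 1) - th n ((s : ℤ) + 1))) := by
    intro r s
    ring
  simp only [h2, Finset.sum_add_distrib, ← Finset.mul_sum]
  rw [sum_ind n (fun i j => φ (th n i - th n j)) u v (by omega) (by omega) (by omega) (by omega),
    sum_ind n (fun i j => φ (th n i - th n j)) v u (by omega) (by omega) (by omega) (by omega),
    sum_ind n (fun i j => φ (th n i - th n j)) (n + 1 - v) (n + 1 - u) (by omega) (by omega) (by omega) (by omega),
    sum_ind n (fun i j => φ (th n i - th n j)) (n + 1 - u) (n + 1 - v) (by omega) (by omega) (by omega) (by omega)]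
  simp only [th_neg]
  have k1 : φ (th n v - th n u) = φ (th n u - th n v) := by
    rw [← hφ]; congr 1; ring
  have k2 : φ (-th n v - -th n u) = φ (th n u - th n v) := by
    congr 1; ring
  have k3 : φ (-th n u - -th n v) = φ (th n u - th n v) := by
    rw [← hφ]; congr 1; ring
  rw [k1, k2, k3]
  ring

theorem sum_ck (n : ℕ) (k : ℤ) (hk : 0 < k) (hk' : k < (n : ℤ) + 1) :
    ∑ a : Fin n, ck n k a = - (1 + Real.cos (Real.pi * k)) / 2 := by
  unfold ck
  rw [sum_cos, if_neg (not_dvd_of _ _ hk (by omega))]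
  ring

theorem const_val (n : ℕ) (φ : ℝ → ℝ) (hφ : ∀ x, φ (-x) = φ x) (u v : ℤ) (hv : 1 ≤ v)
    (huv : v < u) (hN : u + v < (n : ℤ) + 1) (hn : 0 < n)
    (hH : ∀ a b, H n φ a b = 1 / n) :
    (Even (u - v) → φ (th n u - th n v) = - (1 / n)) ∧ (Odd (u - v) → φ (th n u - th n v) = 0) := by
  have h := bilin n φ hφ u v hv huv hN
  simp only [hH] at h
  have h2 : ∑ a : Fin n, ∑ b : Fin n, ck n (u - v) a * ck n (u + v) b * (1 / (n : ℝ)) =
      (∑ a : Fin n, ck n (u - v) a) * (∑ b : Fin n, ck n (u + v) b) * (1 / n) := by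
    rw [Finset.sum_mul_sum, Finset.sum_mul]
    refine Finset.sum_congr rfl fun a _ => ?_
    rw [Finset.sum_mul]
  rw [h2, sum_ck n (u - v) (by omega) (by omega), sum_ck n (u + v) (by omega) (by omega)] at h
  constructor
  · rintro ⟨m, hm⟩
    have c1 : Real.cos (Real.pi * ((u - v : ℤ) : ℝ)) = 1 := by
      rw [hm]
      have : Real.pi * ((m + m : ℤ) : ℝ) = (m : ℝ) * (2 * Real.pi) := by push_cast; ring
      rw [this, Real.cos_int_mul_two_pi]
    have c2 : Real.cos (Real.pi * ((u + v : ℤ) : ℝ)) = 1 := by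
      have : Real.pi * ((u + v : ℤ) : ℝ) = ((m + v : ℤ) : ℝ) * (2 * Real.pi) := by
        have : u = v + (m + m) := by omega
        rw [this]
        push_cast; ring
      rw [this, Real.cos_int_mul_two_pi]
    rw [c1, c2] at h
    linarith
  · rintro ⟨m, hm⟩
    have c1 : Real.cos (Real.pi * ((u - v : ℤ) : ℝ)) = -1 := by
      rw [hm]
      have : Real.pi * ((2 * m + 1 : ℤ) : ℝ) = Real.pi + (m : ℝ) * (2 * Real.pi) := by push_cast; ring
      rw [this, Real.cos_add_int_mul_two_pi, Real.cos_pi]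
    rw [c1] at h
    linarith

theorem conflict (n : ℕ) (φ : ℝ → ℝ) (hφ : ∀ x, φ (-x) = φ x) (hn : 0 < n)
    (hH : ∀ a b, H n φ a b = 1 / n)
    (u v u' v' : ℤ) (hv : 1 ≤ v) (huv : v < u) (hN : u + v < (n : ℤ) + 1)
    (hv' : 1 ≤ v') (huv' : v' < u') (hN' : u' + v' < (n : ℤ) + 1)
    (he : Even (u - v)) (ho : Odd (u' - v')) (hth : th n u - th n v = th n u' - th n v') : False := by
  have h1 := (const_val n φ hφ u v hv huv hN hn hH).1 he
  have h2 := (const_val n φ hφ u' v' hv' huv' hN' hn hH).2 ho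
  rw [hth, h2] at h1
  have : (0 : ℝ) < 1 / n := by positivity
  linarith

end Pool.Agent.Q223.Mix
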