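import Mathlib

namespace Pool.Agent.Q223.Mix

open Matrix Finset

/-- The cosine sum. -/
theorem sum_cos (n : ℕ) (j : ℤ) :
    ∑ a : Fin n, Real.cos (Real.pi * j * ((a : ℝ) + 1) / ((n : ℝ) + 1)) =
      ((n : ℝ) + 1) * (if (2 * ((n : ℤ) + 1)) ∣ j then 1 else 0) - (1 + Real.cos (Real.pi * j)) / 2 := by
  have hN : ((n : ℝ) + 1) ≠ 0 := by positivity
  by_cases h : (2 * ((n : ℤ) + 1)) ∣ j
  · obtain ⟨i, rfl⟩ := h
    have h1 : ∀ a : Fin n, Real.cos (Real.pi * ((2 * ((n : ℤ) + 1) * i : ℤ) : ℝ) * ((a : ℝ) + 1) /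
        ((n : ℝ) + 1)) = 1 := by
      intro a
      have : Real.pi * ((2 * ((n : ℤ) + 1) * i : ℤ) : ℝ) * ((a : ℝ) + 1) / ((n : ℝ) + 1) =
          ((i * ((a : ℤ) + 1) : ℤ) : ℝ) * (2 * Real.pi) := by
        push_cast
        field_simp
      rw [this, Real.cos_int_mul_two_pi]
    have h2 : Real.cos (Real.pi * ((2 * ((n : ℤ) + 1) * i : ℤ) : ℝ)) = 1 := by
      have : Real.pi * ((2 * ((n : ℤ) + 1) * i : ℤ) : ℝ) =
          ((i * ((n : ℤ) + 1) : ℤ) : ℝ) * (2 * Real.pi) := by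
        push_cast
        ring
      rw [this, Real.cos_int_mul_two_pi]
    rw [h2, Finset.sum_congr rfl (fun a _ => h1 a)]
    simp
  · rw [if_neg h]
    set y : ℝ := Real.pi * j / (2 * ((n : ℝ) + 1)) with hy
    have hs : Real.sin y ≠ 0 := by
      intro h0
      rw [Real.sin_eq_zero_iff] at h0
      obtain ⟨i, hi⟩ := h0
      apply h
      refine ⟨i, ?_⟩
      have : (j : ℝ) = 2 * ((n : ℝ) + 1) * i := by
        have hpi := Real.pi_ne_zero
        rw [hy] at hi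
        field_simp at hi
        linarith
      exact_mod_cast this
    have key : ∀ m : ℕ, 2 * Real.sin y * ∑ a ∈ Finset.range m, Real.cos (2 * y * ((a : ℝ) + 1)) =
        Real.sin ((2 * m + 1) * y) - Real.sin y := by
      intro m
      induction m with
      | zero => simp
      | succ m ih =>
        rw [Finset.sum_range_succ, mul_add, ih]
        have e1 : (2 * ((m + 1 : ℕ) : ℝ) + 1) * y = 2 * y * ((m : ℝ) + 1) + y := by
          push_cast; ring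
        have e2 : (2 * (m : ℝ) + 1) * y = 2 * y * ((m : ℝ) + 1) - y := by
          ring
        rw [e1, e2, Real.sin_add, Real.sin_sub]
        ring
    have h3 := key n
    have h4 : (2 * (n : ℝ) + 1) * y = Real.pi * j - y := by
      rw [hy]
      field_simp
      ring
    have h5 : Real.sin (Real.pi * j - y) = - (Real.cos (Real.pi * j) * Real.sin y) := by
      rw [Real.sin_sub]
      have : Real.sin (Real.pi * j) = 0 := by
        rw [mul_comm]; exact Real.sin_int_mul_pi j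
      rw [this]; ring
    rw [h4, h5] at h3
    rw [Fin.sum_univ_eq_sum_range
      (fun a : ℕ => Real.cos (Real.pi * j * ((a : ℝ) + 1) / ((n : ℝ) + 1))) n]
    have h6 : ∀ a ∈ Finset.range n, Real.cos (Real.pi * j * ((a : ℝ) + 1) / ((n : ℝ) + 1)) =
        Real.cos (2 * y * ((a : ℝ) + 1)) := by
      intro a _
      congr 1
      rw [hy]
      field_simp
    rw [Finset.sum_congr rfl h6]
    have : 2 * Real.sin y * (∑ a ∈ Finset.range n, Real.cos (2 * y * ((a : ℝ) + 1)) +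
        (1 + Real.cos (Real.pi * j)) / 2) = 0 := by
      rw [mul_add, h3]; ring
    have h7 : (2 * Real.sin y) ≠ 0 := by
      simpa using hs
    have h8 := (mul_eq_zero.mp this).resolve_left h7
    linarith

/-- indicator of divisibility by `2 (n+1)` -/
noncomputable def dl (n : ℕ) (j : ℤ) : ℝ := if (2 * ((n : ℤ) + 1)) ∣ j then 1 else 0

/-- the sine basis -/
noncomputable def S (n : ℕ) : Matrix (Fin n) (Fin n) ℝ :=
  Matrix.of fun a r => Real.sqrt (2 / ((n : ℝ) + 1)) *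
    Real.sin (Real.pi * ((r : ℝ) + 1) * ((a : ℝ) + 1) / ((n : ℝ) + 1))

noncomputable def ck (n : ℕ) (k : ℤ) (a : Fin n) : ℝ :=
  Real.cos (Real.pi * k * ((a : ℝ) + 1) / ((n : ℝ) + 1))

theorem W_eq (n : ℕ) (k : ℤ) (r s : Fin n) :
    ∑ a : Fin n, ck n k a * S n a r * S n a s =
      (dl n (((r : ℤ) + 1) - ((s : ℤ) + 1) + k) + dl n (((r : ℤ) + 1) - ((s : ℤ) + 1) - k)
        - dl n (((r : ℤ) + 1) + ((s : ℤ) + 1) + k) - dl n (((r : ℤ) + 1) + ((s : ℤ) + 1) - k)) / 2 := by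
  have hN : ((n : ℝ) + 1) ≠ 0 := by positivity
  have hsq : Real.sqrt (2 / ((n : ℝ) + 1)) * Real.sqrt (2 / ((n : ℝ) + 1)) = 2 / ((n : ℝ) + 1) :=
    Real.mul_self_sqrt (by positivity)
  have h1 : ∀ a : Fin n, ck n k a * S n a r * S n a s = 1 / (2 * ((n : ℝ) + 1)) *
      (Real.cos (Real.pi * ((((r : ℤ) + 1) - ((s : ℤ) + 1) + k : ℤ) : ℝ) * ((a : ℝ) + 1) / ((n : ℝ) + 1))
      + Real.cos (Real.pi * ((((r : ℤ) + 1) - ((s : ℤ) + 1) - k : ℤ) : ℝ) * ((a : ℝ) + 1) / ((n : ℝ) + 1))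
      - Real.cos (Real.pi * ((((r : ℤ) + 1) + ((s : ℤ) + 1) + k : ℤ) : ℝ) * ((a : ℝ) + 1) / ((n : ℝ) + 1))
      - Real.cos (Real.pi * ((((r : ℤ) + 1) + ((s : ℤ) + 1) - k : ℤ) : ℝ) * ((a : ℝ) + 1) / ((n : ℝ) + 1))) := by
    intro a
    set x : ℝ := Real.pi * ((r : ℝ) + 1) * ((a : ℝ) + 1) / ((n : ℝ) + 1) with hx
    set y : ℝ := Real.pi * ((s : ℝ) + 1) * ((a : ℝ) + 1) / ((n : ℝ) + 1) with hy
    set z : ℝ := Real.pi * k * ((a : ℝ) + 1) / ((n : ℝ) + 1) with hz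
    have e1 : Real.pi * ((((r : ℤ) + 1) - ((s : ℤ) + 1) + k : ℤ) : ℝ) * ((a : ℝ) + 1) / ((n : ℝ) + 1)
        = (x - y) + z := by rw [hx, hy, hz]; push_cast; ring
    have e2 : Real.pi * ((((r : ℤ) + 1) - ((s : ℤ) + 1) - k : ℤ) : ℝ) * ((a : ℝ) + 1) / ((n : ℝ) + 1)
        = (x - y) - z := by rw [hx, hy, hz]; push_cast; ring
    have e3 : Real.pi * ((((r : ℤ) + 1) + ((s : ℤ) + 1) + k : ℤ) : ℝ) * ((a : ℝ) + 1) / ((n : ℝ) + 1)
        = (x + y) + z := by rw [hx, hy, hz]; push_cast; ring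
    have e4 : Real.pi * ((((r : ℤ) + 1) + ((s : ℤ) + 1) - k : ℤ) : ℝ) * ((a : ℝ) + 1) / ((n : ℝ) + 1)
        = (x + y) - z := by rw [hx, hy, hz]; push_cast; ring
    rw [e1, e2, e3, e4]
    simp only [ck, S, Matrix.of_apply]
    rw [← hx, ← hy, ← hz]
    have e5 : Real.cos z * (Real.sqrt (2 / ((n : ℝ) + 1)) * Real.sin x) *
        (Real.sqrt (2 / ((n : ℝ) + 1)) * Real.sin y) =
        (Real.sqrt (2 / ((n : ℝ) + 1)) * Real.sqrt (2 / ((n : ℝ) + 1))) *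
          (Real.cos z * Real.sin x * Real.sin y) := by ring
    rw [e5, hsq, Real.cos_add, Real.cos_sub (x - y), Real.cos_add (x + y), Real.cos_sub (x + y),
      Real.cos_sub x, Real.cos_add x]
    field_simp
    ring
  rw [Finset.sum_congr rfl (fun a _ => h1 a), ← Finset.mul_sum, Finset.sum_sub_distrib,
    Finset.sum_sub_distrib, Finset.sum_add_distrib, sum_cos, sum_cos, sum_cos, sum_cos]
  have c1 : Real.cos (Real.pi * ((((r : ℤ) + 1) - ((s : ℤ) + 1) + k : ℤ) : ℝ)) =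
      Real.cos (Real.pi * ((((r : ℤ) + 1) + ((s : ℤ) + 1) + k : ℤ) : ℝ)) := by
    have : Real.pi * ((((r : ℤ) + 1) + ((s : ℤ) + 1) + k : ℤ) : ℝ) =
      Real.pi * ((((r : ℤ) + 1) - ((s : ℤ) + 1) + k : ℤ) : ℝ) +
        (((s : ℤ) + 1 : ℤ) : ℝ) * (2 * Real.pi) := by push_cast; ring
    rw [this, Real.cos_add_int_mul_two_pi]
  have c2 : Real.cos (Real.pi * ((((r : ℤ) + 1) - ((s : ℤ) + 1) - k : ℤ) : ℝ)) =
      Real.cos (Real.pi * ((((r : ℤ) + 1) + ((s : ℤ) + 1) - k : ℤ) : ℝ)) := by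
    have : Real.pi * ((((r : ℤ) + 1) + ((s : ℤ) + 1) - k : ℤ) : ℝ) =
      Real.pi * ((((r : ℤ) + 1) - ((s : ℤ) + 1) - k : ℤ) : ℝ) +
        (((s : ℤ) + 1 : ℤ) : ℝ) * (2 * Real.pi) := by push_cast; ring
    rw [this, Real.cos_add_int_mul_two_pi]
  rw [c1, c2]
  simp only [dl]
  field_simp
  ring

end Pool.Agent.Q223.Mix
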