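import Pool.Agent.Q223.Mix.Alg

namespace Pool.Agent.Q223.Mix

open Matrix Finset

theorem th_eq (n : ℕ) (r : ℤ) (x : ℝ) (h : Real.pi * r / ((n : ℝ) + 1) = x) :
    th n r = 2 * Real.cos x := by
  simp [th, h]

theorem cos_fifteen : Real.cos (2 * Real.pi / 5) - Real.cos (2 * Real.pi / 15) =
    Real.cos (8 * Real.pi / 15) - 1 / 2 := by
  have h1 : Real.cos (2 * Real.pi / 15) + Real.cos (8 * Real.pi / 15) = Real.cos (Real.pi / 5) := by
    have e1 : 2 * Real.pi / 15 = Real.pi / 3 - Real.pi / 5 := by ring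
    have e2 : 8 * Real.pi / 15 = Real.pi / 3 + Real.pi / 5 := by ring
    rw [e1, e2, Real.cos_sub, Real.cos_add, Real.cos_pi_div_three]
    ring
  have h2 : Real.cos (2 * Real.pi / 5) = 2 * Real.cos (Real.pi / 5) ^ 2 - 1 := by
    rw [← Real.cos_two_mul]; congr 1; ring
  rw [Real.cos_pi_div_five] at h1 h2
  have h5 : Real.sqrt 5 ^ 2 = 5 := Real.sq_sqrt (by norm_num)
  have : Real.cos (2 * Real.pi / 5) = (Real.sqrt 5 - 1) / 4 := by
    rw [h2]; linear_combination (1 / 8) * h5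
  linarith

theorem cos_seven : Real.cos (3 * Real.pi / 7) - 1 / 2 =
    Real.cos (2 * Real.pi / 7) - Real.cos (Real.pi / 7) := by
  set c := Real.cos (Real.pi / 7) with hc
  have h2 : Real.cos (2 * Real.pi / 7) = 2 * c ^ 2 - 1 := by
    rw [hc, ← Real.cos_two_mul]; congr 1; ring
  have h3 : Real.cos (3 * Real.pi / 7) = 4 * c ^ 3 - 3 * c := by
    rw [hc, ← Real.cos_three_mul]; congr 1; ring
  have h4 : Real.cos (4 * Real.pi / 7) = 2 * (2 * c ^ 2 - 1) ^ 2 - 1 := by
    rw [← h2, ← Real.cos_two_mul]; congr 1; ring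
  have h5 : Real.cos (4 * Real.pi / 7) = - Real.cos (3 * Real.pi / 7) := by
    rw [← Real.cos_pi_sub]; congr 1; ring
  have hpos : 0 < c := by
    rw [hc]
    apply Real.cos_pos_of_mem_Ioo
    constructor <;> linarith [Real.pi_pos]
  rw [h4, h3] at h5
  have h6 : (c + 1) * (8 * c ^ 3 - 4 * c ^ 2 - 4 * c + 1) = 0 := by
    linear_combination h5
  have h7 : 8 * c ^ 3 - 4 * c ^ 2 - 4 * c + 1 = 0 :=
    (mul_eq_zero.mp h6).resolve_left (by linarith)
  rw [h2, h3]
  linear_combination (1 / 2) * h7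

/-- Existence of a conflicting pair of pairs. -/
theorem exists_conflict (n : ℕ) (hn : 5 ≤ n)
    (h : (6 ∣ n + 1 ∧ n ≠ 5) ∨ 15 ∣ n + 1 ∨ 21 ∣ n + 1) :
    ∃ u v u' v' : ℤ, 1 ≤ v ∧ v < u ∧ u + v < (n : ℤ) + 1 ∧ 1 ≤ v' ∧ v' < u' ∧
      u' + v' < (n : ℤ) + 1 ∧ Even (u - v) ∧ Odd (u' - v') ∧
      th n u - th n v = th n u' - th n v' := by
  have six : ∀ n : ℕ, 6 ∣ n + 1 → 5 < n → ∃ u v u' v' : ℤ, 1 ≤ v ∧ v < u ∧ u + v < (n : ℤ) + 1 ∧
      1 ≤ v' ∧ v' < u' ∧
      u' + v' < (n : ℤ) + 1 ∧ Even (u - v) ∧ Odd (u' - v') ∧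
      th n u - th n v = th n u' - th n v' := by
    intro n hn6 hn5
    obtain ⟨m, hm⟩ := hn6
    have hm2 : 2 ≤ m := by omega
    obtain ⟨r, hr1, hr2, hr3⟩ : ∃ r : ℤ, 1 ≤ r ∧ r ≤ 2 ∧ Odd (r + m) := by
      rcases Nat.even_or_odd m with he | ho
      · exact ⟨1, le_rfl, by norm_num, by
          obtain ⟨k, hk⟩ := he
          exact ⟨k, by omega⟩⟩
      · exact ⟨2, by norm_num, le_rfl, by
          obtain ⟨k, hk⟩ := ho
          exact ⟨k + 1, by omega⟩⟩
    refine ⟨4 * m - r, 2 * m - r, 3 * m, r, by omega, by omega, by omega, by omega, by omega,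
      by omega, ⟨m, by ring⟩, ?_, ?_⟩
    · obtain ⟨k, hk⟩ := hr3
      exact ⟨3 * k + 1 - 2 * r, by omega⟩
    · have hmR : (n : ℝ) + 1 = 6 * m := by exact_mod_cast hm
      have hm0 : (m : ℝ) ≠ 0 := by
        have : 0 < m := by omega
        positivity
      rw [th_eq n (4 * m - r) (2 * Real.pi / 3 - Real.pi * r / (6 * m))
        (by rw [hmR]; push_cast; field_simp; ring),
        th_eq n (2 * m - r) (Real.pi / 3 - Real.pi * r / (6 * m))
        (by rw [hmR]; push_cast; field_simp; ring),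
        th_eq n (3 * m) (Real.pi / 2)
        (by rw [hmR]; push_cast; field_simp; ring),
        th_eq n r (Real.pi * r / (6 * m))
        (by rw [hmR])]
      have e2 : Real.cos (2 * Real.pi / 3) = - (1 / 2) := by
        have : 2 * Real.pi / 3 = Real.pi - Real.pi / 3 := by ring
        rw [this, Real.cos_pi_sub, Real.cos_pi_div_three]
      have e3 : Real.sin (2 * Real.pi / 3) = Real.sin (Real.pi / 3) := by
        have : 2 * Real.pi / 3 = Real.pi - Real.pi / 3 := by ring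
        rw [this, Real.sin_pi_sub]
      rw [Real.cos_sub, Real.cos_sub, e2, e3, Real.cos_pi_div_three, Real.cos_pi_div_two]
      ring
  rcases h with ⟨h6, h5⟩ | h15 | h21
  · exact six n h6 (by omega)
  · obtain ⟨m, hm⟩ := h15
    rcases Nat.even_or_odd m with he | ho
    · obtain ⟨k, hk⟩ := he
      exact six n ⟨5 * k, by omega⟩ (by omega)
    · obtain ⟨k, hk⟩ := ho
      refine ⟨6 * m, 2 * m, 8 * m, 5 * m, by omega, by omega, by omega, by omega, by omega,
        by omega, ⟨2 * m, by ring⟩, ⟨3 * k + 1, by omega⟩, ?_⟩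
      have hmR : (n : ℝ) + 1 = 15 * m := by exact_mod_cast hm
      have hm0 : (m : ℝ) ≠ 0 := by
        have : 0 < m := by omega
        positivity
      rw [th_eq n (6 * m) (2 * Real.pi / 5) (by rw [hmR]; push_cast; field_simp; ring),
        th_eq n (2 * m) (2 * Real.pi / 15) (by rw [hmR]; push_cast; field_simp),
        th_eq n (8 * m) (8 * Real.pi / 15) (by rw [hmR]; push_cast; field_simp),
        th_eq n (5 * m) (Real.pi / 3) (by rw [hmR]; push_cast; field_simp; ring),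
        Real.cos_pi_div_three]
      linarith [cos_fifteen]
  · obtain ⟨m, hm⟩ := h21
    rcases Nat.even_or_odd m with he | ho
    · obtain ⟨k, hk⟩ := he
      exact six n ⟨7 * k, by omega⟩ (by omega)
    · obtain ⟨k, hk⟩ := ho
      refine ⟨9 * m, 7 * m, 6 * m, 3 * m, by omega, by omega, by omega, by omega, by omega,
        by omega, ⟨m, by ring⟩, ⟨3 * k + 1, by omega⟩, ?_⟩
      have hmR : (n : ℝ) + 1 = 21 * m := by exact_mod_cast hm
      have hm0 : (m : ℝ) ≠ 0 := by
        have : 0 < m := by omega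
        positivity
      rw [th_eq n (9 * m) (3 * Real.pi / 7) (by rw [hmR]; push_cast; field_simp; ring),
        th_eq n (7 * m) (Real.pi / 3) (by rw [hmR]; push_cast; field_simp; ring),
        th_eq n (6 * m) (2 * Real.pi / 7) (by rw [hmR]; push_cast; field_simp; ring),
        th_eq n (3 * m) (Real.pi / 7) (by rw [hmR]; push_cast; field_simp; ring),
        Real.cos_pi_div_three]
      linarith [cos_seven]

theorem rank_one_const (n : ℕ) (hn : 0 < n) (M : Matrix (Fin n) (Fin n) ℝ)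
    (hs : ∀ a b, M a b = M b a) (hrow : ∀ a, ∑ b, M a b = 1) (hr : M.rank ≤ 1) :
    ∀ a b, M a b = 1 / n := by
  rw [Matrix.rank, finrank_le_one_iff] at hr
  obtain ⟨v, hv⟩ := hr
  have hc : ∀ b : Fin n, ∃ c : ℝ, ∀ a, M a b = c * (v : Fin n → ℝ) a := by
    intro b
    obtain ⟨c, hc⟩ := hv ⟨M.mulVecLin (Pi.single b 1), LinearMap.mem_range_self _ _⟩
    refine ⟨c, fun a => ?_⟩
    have h1 := congrArg (fun w : LinearMap.range M.mulVecLin => (w : Fin n → ℝ) a) hc
    simp at h1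
    rw [h1]
  choose c hc using hc
  have h1 : ∀ a, (v : Fin n → ℝ) a * ∑ b, c b = 1 := by
    intro a
    rw [← hrow a, Finset.mul_sum]
    refine Finset.sum_congr rfl fun b _ => ?_
    rw [hc]; ring
  have hcne : ∑ b, c b ≠ 0 := by
    intro h0
    have := h1 ⟨0, hn⟩
    rw [h0] at this
    simp at this
  have hva : ∀ a a', (v : Fin n → ℝ) a = (v : Fin n → ℝ) a' := by
    intro a a'
    exact mul_right_cancel₀ hcne (by rw [h1 a, h1 a'])
  have hrow' : ∀ a a' b, M a b = M a' b := by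
    intro a a' b
    rw [hc, hc, hva a a']
  intro a b
  have h3 : ∀ b', M a b' = M a b := by
    intro b'
    rw [hs a b', hs a b, hrow' b' b a]
  have h4 := hrow a
  rw [Finset.sum_congr rfl (fun b' _ => h3 b')] at h4
  simp at h4
  have hn0 : (n : ℝ) ≠ 0 := by positivity
  field_simp
  linarith

end Pool.Agent.Q223.Mix
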