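import Pool.Agent.Q223.Mix.Trig

namespace Pool.Agent.Q223.Mix

open Matrix Finset MeasureTheory

/-- sum over neighbours on a path of a function vanishing at the two virtual end points -/
theorem path_sum (n : ℕ) (g : ℕ → ℂ) (h0 : g 0 = 0) (hn : g (n + 1) = 0) (a : Fin n) :
    ∑ b : Fin n, (if a.val + 1 = b.val ∨ b.val + 1 = a.val then (1 : ℂ) else 0) * g (b.val + 1) =
      g a.val + g (a.val + 2) := by
  have e : ∀ b : Fin n, (if a.val + 1 = b.val ∨ b.val + 1 = a.val then (1 : ℂ) else 0) * g (b.val + 1) =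
      (if a.val + 1 = b.val then g (b.val + 1) else 0) +
        (if b.val + 1 = a.val then g (b.val + 1) else 0) := by
    intro b
    by_cases h1 : a.val + 1 = b.val
    · have h2 : ¬ b.val + 1 = a.val := by omega
      simp [h1, h2]
    · by_cases h2 : b.val + 1 = a.val
      · simp [h1, h2]
      · simp [h1, h2]
  rw [Finset.sum_congr rfl (fun b _ => e b), Finset.sum_add_distrib]
  have e1 : ∑ b : Fin n, (if a.val + 1 = b.val then g (b.val + 1) else 0) = g (a.val + 2) := by
    by_cases ha : a.val + 1 < n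
    · rw [Finset.sum_eq_single (⟨a.val + 1, ha⟩ : Fin n)]
      · simp
      · intro b _ hb
        rw [if_neg]
        intro h
        exact hb (Fin.ext h.symm)
      · simp
    · have : a.val + 2 = n + 1 := by have := a.isLt; omega
      rw [this, hn]
      apply Finset.sum_eq_zero
      intro b _
      rw [if_neg]
      have := b.isLt
      omega
  have e2 : ∑ b : Fin n, (if b.val + 1 = a.val then g (b.val + 1) else 0) = g a.val := by
    by_cases ha : a.val = 0
    · rw [ha, h0]
      apply Finset.sum_eq_zero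
      intro b _
      rw [if_neg]
      omega
    · have hlt : a.val - 1 < n := by have := a.isLt; omega
      rw [Finset.sum_eq_single (⟨a.val - 1, hlt⟩ : Fin n)]
      · rw [if_pos (by simp only; omega)]
        congr 1
        simp only
        omega
      · intro b _ hb
        rw [if_neg]
        intro h
        apply hb
        apply Fin.ext
        simp only
        omega
      · simp
  rw [e1, e2, add_comm]

/-- complex version of the sine basis -/
noncomputable def SC (n : ℕ) : Matrix (Fin n) (Fin n) ℂ := Matrix.of fun a r => ((S n a r : ℝ) : ℂ)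

theorem SC_mul_SC (n : ℕ) : SC n * SC n = 1 := by
  ext a r
  rw [Matrix.mul_apply]
  have h := orth n a r
  have e : ∑ b : Fin n, SC n a b * SC n b r = ((∑ b : Fin n, S n b a * S n b r : ℝ) : ℂ) := by
    push_cast
    refine Finset.sum_congr rfl fun b _ => ?_
    simp only [SC, Matrix.of_apply]
    rw [S_symm n a b]
  rw [e, h, Matrix.one_apply]
  by_cases hh : a = r
  · simp [hh]
  · simp [hh]

/-- eigenvalues as a function on `Fin n` -/
noncomputable def thc (n : ℕ) (r : Fin n) : ℂ := ((th n ((r : ℤ) + 1) : ℝ) : ℂ)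

theorem A_mul_SC (n : ℕ) (A : Matrix (Fin n) (Fin n) ℂ)
    (hA : ∀ a b, A a b = if a.val + 1 = b.val ∨ b.val + 1 = a.val then 1 else 0) :
    A * SC n = SC n * Matrix.diagonal (thc n) := by
  ext a r
  rw [Matrix.mul_apply, Matrix.mul_diagonal]
  have hN : ((n : ℝ) + 1) ≠ 0 := by positivity
  set g : ℕ → ℂ := fun b => ((Real.sqrt (2 / ((n : ℝ) + 1)) *
    Real.sin (Real.pi * ((r : ℝ) + 1) * (b : ℝ) / ((n : ℝ) + 1)) : ℝ) : ℂ) with hg
  have h0 : g 0 = 0 := by simp [hg]
  have hn : g (n + 1) = 0 := by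
    have : Real.sin (Real.pi * ((r : ℝ) + 1) * ((n + 1 : ℕ) : ℝ) / ((n : ℝ) + 1)) = 0 := by
      have e : Real.pi * ((r : ℝ) + 1) * ((n + 1 : ℕ) : ℝ) / ((n : ℝ) + 1) = ((r.val + 1 : ℕ) : ℝ) * Real.pi := by
        push_cast
        field_simp
      rw [e, Real.sin_nat_mul_pi]
    simp only [hg, this, mul_zero, Complex.ofReal_zero]
  have h1 := path_sum n g h0 hn a
  have h2 : ∀ b : Fin n, SC n b r = g (b.val + 1) := by
    intro b
    simp only [SC, S, Matrix.of_apply, hg]
    push_cast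
    rfl
  rw [Finset.sum_congr rfl (fun b _ => by rw [hA a b, h2 b]), h1, h2 a]
  simp only [hg, thc, th]
  rw [← Complex.ofReal_add, ← Complex.ofReal_mul]
  congr 1
  set x : ℝ := Real.pi * (((r : ℤ) + 1 : ℤ) : ℝ) / ((n : ℝ) + 1) with hx
  have e1 : Real.pi * ((r : ℝ) + 1) * ((a.val : ℕ) : ℝ) / ((n : ℝ) + 1) = (((a.val + 1 : ℕ) : ℝ) * x) - x := by
    rw [hx]; push_cast; ring
  have e2 : Real.pi * ((r : ℝ) + 1) * ((a.val + 2 : ℕ) : ℝ) / ((n : ℝ) + 1) = (((a.val + 1 : ℕ) : ℝ) * x) + x := by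
    rw [hx]; push_cast; ring
  have e3 : Real.pi * ((r : ℝ) + 1) * ((a.val + 1 : ℕ) : ℝ) / ((n : ℝ) + 1) = (((a.val + 1 : ℕ) : ℝ) * x) := by
    rw [hx]; push_cast; ring
  rw [e1, e2, e3, Real.sin_sub, Real.sin_add]
  ring

theorem exp_eq (n : ℕ) (A : Matrix (Fin n) (Fin n) ℂ)
    (hA : ∀ a b, A a b = if a.val + 1 = b.val ∨ b.val + 1 = a.val then 1 else 0) (z : ℂ) :
    NormedSpace.exp (z • A) =
      SC n * Matrix.diagonal (fun r => Complex.exp (z * thc n r)) * SC n := by
  have hU : IsUnit (SC n) := IsUnit.of_mul_eq_one _ (SC_mul_SC n)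
  have hinv : (SC n)⁻¹ = SC n := Matrix.inv_eq_right_inv (SC_mul_SC n)
  have h1 : z • A = SC n * Matrix.diagonal (fun r => z * thc n r) * (SC n)⁻¹ := by
    rw [hinv]
    have : Matrix.diagonal (fun r => z * thc n r) = z • Matrix.diagonal (thc n) := by
      rw [← Matrix.diagonal_smul]
      rfl
    rw [this, Matrix.mul_smul, Matrix.smul_mul, ← A_mul_SC n A hA, Matrix.mul_assoc, SC_mul_SC,
      Matrix.mul_one]
  rw [h1, Matrix.exp_conj _ _ hU, hinv, Matrix.exp_diagonal]
  congr 2
  congr 1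
  funext r
  rw [Pi.exp_def, Complex.exp_eq_exp_ℂ]

theorem normSq_entry (n : ℕ) (A : Matrix (Fin n) (Fin n) ℂ)
    (hA : ∀ a b, A a b = if a.val + 1 = b.val ∨ b.val + 1 = a.val then 1 else 0) (t : ℝ)
    (a b : Fin n) :
    ‖(NormedSpace.exp ((Complex.I * (t : ℂ)) • A)) a b‖ ^ 2 =
      H n (fun c => Real.cos (c * t)) a b := by
  rw [exp_eq n A hA, Matrix.mul_apply]
  have h1 : ∑ r : Fin n, (SC n * Matrix.diagonal (fun r => Complex.exp (Complex.I * (t : ℂ) * thc n r))) a r *
      SC n r b =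
      ((∑ r : Fin n, S n a r * S n b r * Real.cos (th n ((r : ℤ) + 1) * t) : ℝ) : ℂ) +
      ((∑ r : Fin n, S n a r * S n b r * Real.sin (th n ((r : ℤ) + 1) * t) : ℝ) : ℂ) * Complex.I := by
    push_cast
    rw [Finset.sum_mul, ← Finset.sum_add_distrib]
    refine Finset.sum_congr rfl fun r _ => ?_
    rw [Matrix.mul_diagonal]
    have e1 : Complex.I * (t : ℂ) * thc n r = ((th n ((r : ℤ) + 1) * t : ℝ) : ℂ) * Complex.I := by
      simp only [thc]
      push_cast
      ring
    rw [e1, Complex.exp_mul_I]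
    simp only [SC, Matrix.of_apply]
    rw [S_symm n r b]
    push_cast
    ring
  rw [h1]
  have h2 : ∀ x y : ℝ, ‖(x : ℂ) + (y : ℂ) * Complex.I‖ ^ 2 = x * x + y * y := by
    intro x y
    rw [← Complex.normSq_eq_norm_sq, Complex.normSq_add_mul_I]
    ring
  rw [h2, Finset.sum_mul_sum, Finset.sum_mul_sum, ← Finset.sum_add_distrib]
  unfold H
  refine Finset.sum_congr rfl fun r _ => ?_
  rw [← Finset.sum_add_distrib]
  refine Finset.sum_congr rfl fun s _ => ?_
  have h3 : Real.cos ((th n ((r : ℤ) + 1) - th n ((s : ℤ) + 1)) * t) =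
      Real.cos (th n ((r : ℤ) + 1) * t) * Real.cos (th n ((s : ℤ) + 1) * t) +
      Real.sin (th n ((r : ℤ) + 1) * t) * Real.sin (th n ((s : ℤ) + 1) * t) := by
    rw [sub_mul, Real.cos_sub]
  simp only [h3]
  ring

theorem integral_H (n : ℕ) (μ : Measure ℝ) (f : ℝ → ℝ) (hf : Integrable f μ) (a b : Fin n) :
    ∫ t, f t * H n (fun c => Real.cos (c * t)) a b ∂μ =
      H n (fun c => ∫ t, f t * Real.cos (c * t) ∂μ) a b := by
  have hint : ∀ c : ℝ, Integrable (fun t => f t * Real.cos (c * t)) μ := by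
    intro c
    refine hf.mul_bdd (c := 1) ?_ ?_
    · exact (Real.continuous_cos.comp (continuous_const.mul continuous_id)).aestronglyMeasurable
    · exact Filter.Eventually.of_forall fun t => by
        simpa using Real.abs_cos_le_one _
  unfold H
  have e : ∀ t : ℝ, f t * ∑ r : Fin n, ∑ s : Fin n, S n a r * S n a s * (S n b r * S n b s) *
      Real.cos ((th n ((r : ℤ) + 1) - th n ((s : ℤ) + 1)) * t) =
      ∑ r : Fin n, ∑ s : Fin n, S n a r * S n a s * (S n b r * S n b s) *
      (f t * Real.cos ((th n ((r : ℤ) + 1) - th n ((s : ℤ) + 1)) * t)) := by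
    intro t
    rw [Finset.mul_sum]
    refine Finset.sum_congr rfl fun r _ => ?_
    rw [Finset.mul_sum]
    refine Finset.sum_congr rfl fun s _ => ?_
    ring
  simp only [e]
  rw [integral_finsetSum _ (fun r _ => ?_)]
  · refine Finset.sum_congr rfl fun r _ => ?_
    rw [integral_finsetSum _ (fun s _ => ?_)]
    · refine Finset.sum_congr rfl fun s _ => ?_
      rw [integral_const_mul]
    · exact (hint _).const_mul _
  · exact integrable_finsetSum _ fun s _ => (hint _).const_mul _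

/-- Main statement in helper form. -/
theorem main (n : ℕ) (hn : 5 ≤ n) (h : (6 ∣ n + 1 ∧ n ≠ 5) ∨ 15 ∣ n + 1 ∨ 21 ∣ n + 1)
    (A : Matrix (Fin n) (Fin n) ℂ)
    (hA : ∀ a b, A a b = if a.val + 1 = b.val ∨ b.val + 1 = a.val then 1 else 0)
    (μ : Measure ℝ) (f : ℝ → ℝ) (hf : ∫ t, f t ∂μ = 1) (M : Matrix (Fin n) (Fin n) ℝ)
    (hM : ∀ a b, M a b = ∫ t, f t * ‖(NormedSpace.exp ((Complex.I * (t : ℂ)) • A)) a b‖ ^ 2 ∂μ) :
    2 ≤ M.rank := by
  by_contra hlt
  have hr : M.rank ≤ 1 := by omega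
  have hfi : Integrable f μ := by
    by_contra hni
    rw [integral_undef hni] at hf
    norm_num at hf
  set φ : ℝ → ℝ := fun c => ∫ t, f t * Real.cos (c * t) ∂μ with hφ
  have hMH : ∀ a b, M a b = H n φ a b := by
    intro a b
    rw [hM, ← integral_H n μ f hfi]
    simp only [normSq_entry n A hA]
  have hφn : ∀ x, φ (-x) = φ x := by
    intro x
    simp only [hφ, neg_mul, Real.cos_neg]
  have hφ0 : φ 0 = 1 := by
    simp only [hφ, zero_mul, Real.cos_zero, mul_one, hf]
  have hc := rank_one_const n (by omega) M (fun a b => by rw [hMH, hMH, H_symm])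
    (fun a => by simp only [hMH]; exact H_row n φ hφ0 a) hr
  obtain ⟨u, v, u', v', h1, h2, h3, h4, h5, h6, h7, h8, h9⟩ := exists_conflict n hn h
  exact conflict n φ hφn (by omega) (fun a b => by rw [← hMH, hc]) u v u' v' h1 h2 h3 h4 h5 h6 h7 h8 h9

end Pool.Agent.Q223.Mix
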